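import Pool.Agent.Helper3.DB.Notions
import Pool.Agent.Helper3.DB.Main

open MeasureTheory
open Pool.Agent.Helper3.DB

namespace Pool.Agent.Results.MP_c338f1_an.NoLpEstimate

/-- There is a bounded convex domain `Ω` in `ℂ^3` with `C^∞` boundary on which, for every real
`p ≥ 32`, the equation `∂̄u = f` for `∂̄`-closed `(0,1)`-forms `f` has no `L^p` estimate. -/
theorem result : ∃ Ω : Set (Fin 3 → ℂ), SmoothBoundedConvex Ω ∧
    ∀ p : ℝ, 32 ≤ p → ¬ LpSolvable Ω p := main

end Pool.Agent.Results.MP_c338f1_an.NoLpEstimate
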